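import Pool.Agent.Helper93.NR.Ker
import Pool.Agent.Helper93.NS.VarLow
import Pool.Agent.Helper82.NS.Geo

/-!
# OPT: the test sequence `mt` of the duality (blocks O6, O7)
-/

set_option autoImplicit false
open MeasureTheory Set Filter Topology
open Pool.Agent.Helper57.TX (QX)
open Pool.Agent.Helper54.LG (qk qk_cont)
open Pool.Agent.Helper93.NR (KK KK_mass KK_nonneg KK_cont)
open Pool.Agent.Helper93.NS (mem_QX)
open Pool.Agent.Helper82.NS (mert_small)

namespace Pool.Agent.Helper82.OPT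

/-- the test sequence -/
noncomputable def mt (T Lam : ℝ) (p : ℕ) : ℝ := 1 - max 0 (1 - Lam * Real.log p / Real.log T) ^ 2

/-- the dual function at the ends of the intervals -/
noncomputable def Psi (T M Lam x : ℝ) : ℝ := ∑ p ∈ QX (Real.log T / M),
  (1 - M * Real.log p / Real.log T) ^ 2 * mt T Lam p * Real.sin (2 * Real.pi * x * (Real.log p / Real.log T)) / p

theorem psi_neg (T M Lam x : ℝ) : Psi T M Lam (-x) = -Psi T M Lam x := by
  unfold Psi
  rw [← Finset.sum_neg_distrib]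
  refine Finset.sum_congr rfl fun p _ => ?_
  rw [show 2 * Real.pi * -x * (Real.log p / Real.log T) = -(2 * Real.pi * x * (Real.log p / Real.log T)) by ring, Real.sin_neg]
  ring

theorem mt_bounds {T Lam : ℝ} (hT : 1 < T) (hL : 0 ≤ Lam) (p : ℕ) : 0 ≤ mt T Lam p ∧ mt T Lam p ≤ 1 ∧
    mt T Lam p ≤ 2 * (Lam * Real.log p / Real.log T) := by
  have hlT : 0 < Real.log T := Real.log_pos hT
  have h0 : 0 ≤ Real.log p := Real.log_natCast_nonneg p
  have hy : 0 ≤ Lam * Real.log p / Real.log T := by positivity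
  unfold mt
  set y := Lam * Real.log p / Real.log T with hyd
  rcases le_total (1 - y) 0 with h | h
  · rw [max_eq_left h]
    refine ⟨by norm_num, by norm_num, by linarith⟩
  · rw [max_eq_right h]
    refine ⟨by nlinarith, by nlinarith [sq_nonneg (1 - y)], by nlinarith [sq_nonneg y]⟩

/-! ### O7 -/

/-- sum of `1/p`, upper bound -/
lemma recip_up : ∃ E : ℝ, 0 < E ∧ ∀ a b : ℝ, 1 ≤ a → a ≤ b → ∀ P : Finset ℕ,
    (∀ p : ℕ, p ∈ P ↔ p.Prime ∧ a < Real.log p ∧ Real.log p ≤ b) → ∑ p ∈ P, 1 / (p:ℝ) ≤ Real.log (b / a) + E := by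
  obtain ⟨E, hE, H⟩ := Pool.Agent.Helper7.UV.prime_sum
  refine ⟨E, hE, fun a b ha hab P hP => ?_⟩
  have ha0 : 0 < a := by linarith
  have hb0 : 0 < b := by linarith
  have hne : ∀ u ∈ Icc a b, u ≠ 0 := fun u hu => by linarith [hu.1] |> fun h : 0 < u => h.ne'
  have h1 := H a b ha0.le hab P hP (fun u => u⁻¹) (fun u => -(u ^ 2)⁻¹) (fun u hu => hasDerivAt_inv (hne u hu)) (by
    apply ContinuousOn.neg
    apply ContinuousOn.inv₀ (by fun_prop)
    intro u hu
    exact pow_ne_zero 2 (hne u hu))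
  have h2 : ∑ p ∈ P, Real.log p / p * (Real.log p)⁻¹ = ∑ p ∈ P, 1 / (p:ℝ) := by
    refine Finset.sum_congr rfl fun p hp => ?_
    have h3 := (hP p).1 hp
    have h4 : Real.log p ≠ 0 := by linarith [h3.2.1] |> fun h : 0 < Real.log p => h.ne'
    field_simp
  have h3 : ∫ u in a..b, u⁻¹ = Real.log (b / a) := integral_inv_of_pos ha0 hb0
  have h4 : ∫ u in a..b, |-(u ^ 2)⁻¹| = a⁻¹ - b⁻¹ := by
    have h5 : ∫ u in a..b, |-(u ^ 2)⁻¹| = ∫ u in a..b, (u ^ 2)⁻¹ := by
      congr 1
      funext u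
      rw [abs_neg, abs_of_nonneg (by positivity)]
    rw [h5]
    have h6 := intervalIntegral.integral_eq_sub_of_hasDerivAt (a := a) (b := b) (f := fun u : ℝ => -u⁻¹) (f' := fun u => (u ^ 2)⁻¹)
      (fun u hu => by
        rw [uIcc_of_le hab] at hu
        have := (hasDerivAt_inv (hne u hu)).fun_neg
        rwa [neg_neg] at this) (by
        apply ContinuousOn.intervalIntegrable
        rw [uIcc_of_le hab]
        apply ContinuousOn.inv₀ (by fun_prop)
        intro u hu
        exact pow_ne_zero 2 (hne u hu))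
    rw [h6]
    ring
  rw [h2, h3, h4, abs_of_pos (inv_pos.2 hb0)] at h1
  have h5 := (abs_le.1 h1).2
  have h6 : b⁻¹ + (a⁻¹ - b⁻¹) ≤ 1 := by
    have : a⁻¹ ≤ 1 := inv_le_one_of_one_le₀ ha
    linarith
  have h7 := mul_le_mul_of_nonneg_left h6 hE.le
  linarith

/-- **O7** -/
theorem mt_sq : ∃ C : ℝ, 0 < C ∧ ∀ T M Lam : ℝ, 1 < T → 1 ≤ M → M ≤ Lam → Lam ≤ Real.log T →
    ∑ p ∈ QX (Real.log T / M), mt T Lam p ^ 2 / p ≤ Real.log (Lam / M) + C := by
  classical
  obtain ⟨E, hE, hs⟩ := mert_small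
  obtain ⟨E', hE', hr⟩ := recip_up
  refine ⟨4 + 4 * E + E', by positivity, fun T M Lam hT hM hML hLT => ?_⟩
  have hlT : 0 < Real.log T := Real.log_pos hT
  have hM0 : 0 < M := by linarith
  have hL0 : 0 < Lam := by linarith
  have hb1 : 1 ≤ Real.log T / Lam := by rwa [one_le_div hL0]
  have hb12 : Real.log T / Lam ≤ Real.log T / M := div_le_div_of_nonneg_left hlT.le hM0 hML
  rw [← Finset.sum_filter_add_sum_filter_not (QX (Real.log T / M)) (fun p : ℕ => Real.log p ≤ Real.log T / Lam)]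
  have h1 : ∑ p ∈ (QX (Real.log T / M)).filter (fun p : ℕ => Real.log p ≤ Real.log T / Lam), mt T Lam p ^ 2 / p ≤ 4 + 4 * E := by
    have e1 : (QX (Real.log T / M)).filter (fun p : ℕ => Real.log p ≤ Real.log T / Lam) = QX (Real.log T / Lam) := by
      ext p
      rw [Finset.mem_filter, mem_QX, mem_QX]
      constructor
      · rintro ⟨⟨h1, _⟩, h2⟩
        exact ⟨h1, h2⟩
      · rintro ⟨h1, h2⟩
        exact ⟨⟨h1, h2.trans hb12⟩, h2⟩
    rw [e1]
    have h2 := hs (Real.log T / Lam) (by linarith)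
    have h3 : ∀ p ∈ QX (Real.log T / Lam), mt T Lam p ^ 2 / p ≤ 4 / (Real.log T / Lam) * (Real.log p / p) := by
      intro p hp
      rw [mem_QX] at hp
      have hp0 : (0:ℝ) < p := by exact_mod_cast hp.1.pos
      have hl0 : 0 ≤ Real.log p := Real.log_natCast_nonneg p
      obtain ⟨m0, _, m2⟩ := mt_bounds hT hL0.le p
      have h4 : Lam * Real.log p / Real.log T ≤ 1 := by
        rw [div_le_one hlT, mul_comm]
        have := hp.2
        rwa [le_div_iff₀ hL0] at this
      have h5 : 0 ≤ Lam * Real.log p / Real.log T := by positivity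
      have h6 : mt T Lam p ^ 2 ≤ 4 * (Lam * Real.log p / Real.log T) := by nlinarith
      have h7 : 4 / (Real.log T / Lam) * (Real.log p / p) = 4 * (Lam * Real.log p / Real.log T) / p := by
        field_simp
      rw [h7]
      exact div_le_div_of_nonneg_right h6 hp0.le
    refine (Finset.sum_le_sum h3).trans ?_
    rw [← Finset.mul_sum]
    have h8 : (0:ℝ) < Real.log T / Lam := by linarith
    have h9 : 4 / (Real.log T / Lam) * ∑ p ∈ QX (Real.log T / Lam), Real.log p / p ≤ 4 / (Real.log T / Lam) * (Real.log T / Lam + E) :=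
      mul_le_mul_of_nonneg_left h2 (by positivity)
    refine h9.trans ?_
    rw [mul_add, div_mul_cancel₀ _ h8.ne']
    have h10 : 4 / (Real.log T / Lam) ≤ 4 := div_le_self (by norm_num) hb1
    have := mul_le_mul_of_nonneg_right h10 hE.le
    linarith
  have h2 : ∑ p ∈ (QX (Real.log T / M)).filter (fun p : ℕ => ¬ Real.log p ≤ Real.log T / Lam), mt T Lam p ^ 2 / p ≤
      Real.log (Lam / M) + E' := by
    have h3 := hr (Real.log T / Lam) (Real.log T / M) hb1 hb12
      ((QX (Real.log T / M)).filter (fun p : ℕ => ¬ Real.log p ≤ Real.log T / Lam)) (fun p => by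
        rw [Finset.mem_filter, mem_QX, not_le]
        tauto)
    have e2 : Real.log T / M / (Real.log T / Lam) = Lam / M := by field_simp
    rw [e2] at h3
    refine le_trans (Finset.sum_le_sum fun p _ => ?_) h3
    have hp0 : (0:ℝ) ≤ p := Nat.cast_nonneg p
    obtain ⟨m0, m1, _⟩ := mt_bounds hT hL0.le p
    exact div_le_div_of_nonneg_right (by nlinarith) hp0
  linarith

/-! ### O6 -/

/-- the main term -/
lemma sin_int {M x : ℝ} (hM : 0 < M) :
    ∫ v in (0:ℝ)..1, (1 - v) ^ 2 * (Real.sin (2 * Real.pi * x / M * v) / v) = Real.pi / M * ∫ s in (0:ℝ)..x, KK M s := by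
  have hpi := Real.pi_pos
  have e1 : ∀ s, KK M s = 2 * ∫ v in (0:ℝ)..1, (1 - v) ^ 2 * Real.cos (2 * Real.pi * s / M * v) := by
    intro s
    unfold KK qk
    simp
  simp_rw [e1]
  rw [intervalIntegral.integral_const_mul, intervalIntegral_intervalIntegral_swap]
  · rw [← intervalIntegral.integral_const_mul, ← intervalIntegral.integral_const_mul]
    refine intervalIntegral.integral_congr_ae (ae_of_all _ fun v hv => ?_)
    rw [uIoc_of_le (by norm_num : (0:ℝ) ≤ 1)] at hv
    have hv0 : 0 < v := hv.1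
    rw [intervalIntegral.integral_const_mul]
    have hc : 2 * Real.pi / M * v ≠ 0 := by positivity
    have h2 : ∀ s, Real.cos (2 * Real.pi * s / M * v) = Real.cos ((2 * Real.pi / M * v) * s) := by
      intro s
      congr 1
      ring
    simp_rw [h2]
    rw [intervalIntegral.integral_comp_mul_left _ hc, integral_cos]
    rw [mul_zero, Real.sin_zero, sub_zero, smul_eq_mul]
    rw [show 2 * Real.pi / M * v * x = 2 * Real.pi * x / M * v by ring]
    field_simp
  · have hc : Continuous (Function.uncurry fun s v : ℝ => (1 - v) ^ 2 * Real.cos (2 * Real.pi * s / M * v)) := by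
      unfold Function.uncurry
      fun_prop
    exact (hc.continuousOn.integrableOn_compact (isCompact_uIcc.prod isCompact_uIcc)).mono_set
      (Set.prod_mono uIoc_subset_uIcc uIoc_subset_uIcc)

lemma sin_pi {M x : ℝ} (hM : 0 < M) (hx : 0 < x) :
    |(∫ v in (0:ℝ)..1, (1 - v) ^ 2 * (Real.sin (2 * Real.pi * x / M * v) / v)) - Real.pi / 2| ≤ Real.pi * (M / x) := by
  have hpi := Real.pi_pos
  rw [sin_int hM]
  obtain ⟨h1, h2, h3⟩ := KK_mass hM
  have h4 : ∫ x in Ioi (0:ℝ), KK M x = (∫ s in (0:ℝ)..x, KK M s) + ∫ x in Ioi x, KK M x := by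
    rw [intervalIntegral.integral_of_le hx.le,
      ← setIntegral_union Ioc_disjoint_Ioi_same measurableSet_Ioi (h2.mono_set Ioc_subset_Ioi_self) (h2.mono_set (Ioi_subset_Ioi hx.le)),
      Ioc_union_Ioi_eq_Ioi hx.le]
  have h5 : 0 ≤ ∫ x in Ioi x, KK M x := integral_nonneg fun x => KK_nonneg _ _
  have h6 := h3 x hx
  have h7 : ∫ s in (0:ℝ)..x, KK M s = M / 2 - ∫ x in Ioi x, KK M x := by linarith
  rw [h7]
  have h8 : Real.pi / M * (M / 2 - ∫ x in Ioi x, KK M x) - Real.pi / 2 = -(Real.pi / M * ∫ x in Ioi x, KK M x) := by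
    field_simp
    ring
  rw [h8, abs_neg, abs_of_nonneg (by positivity)]
  have h9 : Real.pi / M * ∫ x in Ioi x, KK M x ≤ Real.pi / M * (M ^ 2 / x) := mul_le_mul_of_nonneg_left h6 (by positivity)
  refine h9.trans (le_of_eq ?_)
  field_simp

/-- the profile, continuous form -/
noncomputable def gg (mu w u : ℝ) : ℝ := (1 - mu * u) ^ 2 * (w * Real.sinc (w * u))

lemma gg_cont (mu w : ℝ) : Continuous (gg mu w) := by
  unfold gg
  fun_prop

lemma gg_eq {mu w u : ℝ} (hw : w ≠ 0) (hu : u ≠ 0) : gg mu w u = (1 - mu * u) ^ 2 * (Real.sin (w * u) / u) := by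
  unfold gg
  rw [Real.sinc_of_ne_zero (mul_ne_zero hw hu)]
  congr 1
  field_simp

lemma gg_abs {mu w u : ℝ} (hw : 0 < w) (h0 : 0 ≤ mu * u) (h1 : mu * u ≤ 1) : |gg mu w u| ≤ w := by
  unfold gg
  rw [abs_mul, abs_mul, abs_of_nonneg (sq_nonneg _), abs_of_pos hw]
  have h2 := Real.abs_sinc_le_one (w * u)
  have h3 : (1 - mu * u) ^ 2 ≤ 1 := by nlinarith
  have h4 : w * |Real.sinc (w * u)| ≤ w * 1 := mul_le_mul_of_nonneg_left h2 hw.le
  have h5 : 0 ≤ w * |Real.sinc (w * u)| := by positivity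
  calc (1 - mu * u) ^ 2 * (w * |Real.sinc (w * u)|) ≤ 1 * (w * |Real.sinc (w * u)|) := mul_le_mul_of_nonneg_right h3 h5
    _ ≤ w := by linarith

lemma gg_int {mu x M : ℝ} (hM : 0 < M) (hmu : 0 < mu) (hx : 0 < x) :
    |(∫ u in (0:ℝ)..1 / mu, gg mu (2 * Real.pi * x * mu / M) u) - Real.pi / 2| ≤ Real.pi * (M / x) := by
  have hpi := Real.pi_pos
  have h := sin_pi hM hx
  have hw : 2 * Real.pi * x * mu / M ≠ 0 := by positivity
  have e : ∫ u in (0:ℝ)..1 / mu, gg mu (2 * Real.pi * x * mu / M) u = ∫ v in (0:ℝ)..1, (1 - v) ^ 2 * (Real.sin (2 * Real.pi * x / M * v) / v) := by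
    have h1 := intervalIntegral.mul_integral_comp_mul_left (a := 0) (b := 1) (f := gg mu (2 * Real.pi * x * mu / M)) (1 / mu)
    rw [mul_zero, mul_one] at h1
    rw [← h1, ← intervalIntegral.integral_const_mul]
    refine intervalIntegral.integral_congr_ae (ae_of_all _ fun v hv => ?_)
    rw [uIoc_of_le (by norm_num : (0:ℝ) ≤ 1)] at hv
    have hv0 : 0 < v := hv.1
    rw [gg_eq hw (by positivity)]
    have e1 : mu * (1 / mu * v) = v := by field_simp
    have e2 : 2 * Real.pi * x * mu / M * (1 / mu * v) = 2 * Real.pi * x / M * v := by field_simp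
    rw [e1, e2]
    field_simp
  rw [e]
  exact h

/-- range 1 -/
noncomputable def H1 (lam mu w u : ℝ) : ℝ := lam * ((2 - lam * u) * (1 - mu * u) ^ 2 * Real.sin (w * u))

noncomputable def H1' (lam mu w u : ℝ) : ℝ := lam * ((-lam * (1 - mu * u) ^ 2 - 2 * mu * (1 - mu * u) * (2 - lam * u)) * Real.sin (w * u) +
  (2 - lam * u) * (1 - mu * u) ^ 2 * (w * Real.cos (w * u)))

lemma H1_deriv (lam mu w u : ℝ) : HasDerivAt (H1 lam mu w) (H1' lam mu w u) u := by
  have h1 : HasDerivAt (fun u : ℝ => 2 - lam * u) (-lam) u := by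
    simpa using ((hasDerivAt_id u).const_mul lam).const_sub 2
  have h2 : HasDerivAt (fun u : ℝ => 1 - mu * u) (-mu) u := by
    simpa using ((hasDerivAt_id u).const_mul mu).const_sub 1
  have h3 : HasDerivAt (fun u : ℝ => Real.sin (w * u)) (Real.cos (w * u) * w) u := by
    have := ((hasDerivAt_id u).const_mul w).sin
    simpa using this
  have h4 := ((h1.mul (h2.pow 2)).mul h3).const_mul lam
  refine h4.congr_deriv ?_
  unfold H1'
  simp only [Pi.mul_apply, Pi.pow_apply, Nat.cast_ofNat]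
  ring

lemma H1_bd {lam mu w u : ℝ} (hmu : 0 ≤ mu) (hml : mu ≤ lam) (hw : 0 ≤ w) (h0 : 0 ≤ u) (h1 : lam * u ≤ 1) :
    |H1 lam mu w u| ≤ 2 * lam ∧ |H1' lam mu w u| ≤ lam * (lam + 4 * mu + 2 * w) := by
  have hl : 0 ≤ lam := hmu.trans hml
  have hlu : 0 ≤ lam * u := by positivity
  have hmu0 : 0 ≤ mu * u := by positivity
  have hmu1 : mu * u ≤ 1 := (mul_le_mul_of_nonneg_right hml h0).trans h1
  have hs := Real.abs_sin_le_one (w * u)
  have hc := Real.abs_cos_le_one (w * u)
  have hA : 0 ≤ 2 - lam * u := by linarith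
  have hA2 : 2 - lam * u ≤ 2 := by linarith
  have hB0 : 0 ≤ 1 - mu * u := by linarith
  have hB1 : 1 - mu * u ≤ 1 := by linarith
  have hB : (1 - mu * u) ^ 2 ≤ 1 := pow_le_one₀ hB0 hB1
  have hB' : 0 ≤ (1 - mu * u) ^ 2 := sq_nonneg _
  have hAB : (2 - lam * u) * (1 - mu * u) ^ 2 ≤ 2 := by nlinarith
  have hAB0 : 0 ≤ (2 - lam * u) * (1 - mu * u) ^ 2 := by positivity
  constructor
  · unfold H1
    rw [abs_mul, abs_of_nonneg hl, abs_mul, abs_of_nonneg hAB0]
    have : (2 - lam * u) * (1 - mu * u) ^ 2 * |Real.sin (w * u)| ≤ 2 * 1 := mul_le_mul hAB hs (abs_nonneg _) (by norm_num)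
    have := mul_le_mul_of_nonneg_left this hl
    linarith
  · unfold H1'
    rw [abs_mul, abs_of_nonneg hl]
    refine mul_le_mul_of_nonneg_left ?_ hl
    refine (abs_add_le _ _).trans ?_
    have e1 : |(-lam * (1 - mu * u) ^ 2 - 2 * mu * (1 - mu * u) * (2 - lam * u)) * Real.sin (w * u)| ≤ lam + 4 * mu := by
      rw [abs_mul]
      have e2 : |(-lam * (1 - mu * u) ^ 2 - 2 * mu * (1 - mu * u) * (2 - lam * u))| ≤ lam + 4 * mu := by
        have e3 : 0 ≤ lam * (1 - mu * u) ^ 2 := by positivity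
        have e4 : lam * (1 - mu * u) ^ 2 ≤ lam := by nlinarith
        have e5 : 0 ≤ mu * ((1 - mu * u) * (2 - lam * u)) := by positivity
        have e6 : (1 - mu * u) * (2 - lam * u) ≤ 2 := by nlinarith
        have e7 : mu * ((1 - mu * u) * (2 - lam * u)) ≤ mu * 2 := mul_le_mul_of_nonneg_left e6 hmu
        rw [abs_le]
        constructor <;> nlinarith
      calc _ ≤ (lam + 4 * mu) * 1 := mul_le_mul e2 hs (abs_nonneg _) (by positivity)
        _ = _ := by ring
    have e2 : |(2 - lam * u) * (1 - mu * u) ^ 2 * (w * Real.cos (w * u))| ≤ 2 * w := by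
      rw [abs_mul, abs_of_nonneg hAB0, abs_mul, abs_of_nonneg hw]
      have : w * |Real.cos (w * u)| ≤ w * 1 := mul_le_mul_of_nonneg_left hc hw
      calc _ ≤ 2 * (w * 1) := mul_le_mul hAB this (by positivity) (by norm_num)
        _ = _ := by ring
    linarith

/-- range 2 -/
noncomputable def H2 (mu w u : ℝ) : ℝ := (1 - mu * u) ^ 2 * (Real.sin (w * u) / u)

noncomputable def H2' (mu w u : ℝ) : ℝ := -2 * mu * (1 - mu * u) * (Real.sin (w * u) / u) +
  (1 - mu * u) ^ 2 * ((w * Real.cos (w * u) * u - Real.sin (w * u)) / u ^ 2)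

lemma H2_deriv (mu w : ℝ) {u : ℝ} (hu : u ≠ 0) : HasDerivAt (H2 mu w) (H2' mu w u) u := by
  have h2 : HasDerivAt (fun u : ℝ => 1 - mu * u) (-mu) u := by
    simpa using ((hasDerivAt_id u).const_mul mu).const_sub 1
  have h3 : HasDerivAt (fun u : ℝ => Real.sin (w * u)) (Real.cos (w * u) * w) u := by
    have := ((hasDerivAt_id u).const_mul w).sin
    simpa using this
  have h4 := (h2.pow 2).mul (h3.div (hasDerivAt_id u) hu)
  refine h4.congr_deriv ?_
  unfold H2'
  simp only [Pi.pow_apply, Pi.div_apply, Nat.cast_ofNat, id]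
  ring

lemma H2_bd {mu w u : ℝ} (hmu : 0 ≤ mu) (hw : 0 ≤ w) (h0 : 0 < u) (h1 : mu * u ≤ 1) :
    |H2' mu w u| ≤ (2 * mu + w) * u⁻¹ + (u ^ 2)⁻¹ := by
  have hmu0 : 0 ≤ mu * u := by positivity
  have hs := Real.abs_sin_le_one (w * u)
  have hc := Real.abs_cos_le_one (w * u)
  have hB0 : 0 ≤ 1 - mu * u := by linarith
  have hB1 : 1 - mu * u ≤ 1 := by linarith
  have hB : (1 - mu * u) ^ 2 ≤ 1 := pow_le_one₀ hB0 hB1
  unfold H2'
  refine (abs_add_le _ _).trans ?_
  have e1 : |-2 * mu * (1 - mu * u) * (Real.sin (w * u) / u)| ≤ 2 * mu * u⁻¹ := by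
    rw [abs_mul, abs_mul, abs_mul, abs_of_nonneg hmu, abs_of_nonneg hB0, abs_div, abs_of_pos h0, div_eq_mul_inv]
    have e3 : |Real.sin (w * u)| * u⁻¹ ≤ 1 * u⁻¹ := mul_le_mul_of_nonneg_right hs (by positivity)
    rw [abs_neg, abs_of_pos (by norm_num : (0:ℝ) < 2)]
    have e4 : 2 * mu * (1 - mu * u) ≤ 2 * mu * 1 := mul_le_mul_of_nonneg_left hB1 (by positivity)
    calc _ ≤ 2 * mu * 1 * (1 * u⁻¹) := mul_le_mul e4 e3 (by positivity) (by positivity)
      _ = _ := by ring
  have e2 : |(1 - mu * u) ^ 2 * ((w * Real.cos (w * u) * u - Real.sin (w * u)) / u ^ 2)| ≤ w * u⁻¹ + (u ^ 2)⁻¹ := by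
    rw [abs_mul, abs_of_nonneg (sq_nonneg _), abs_div, abs_of_pos (by positivity : (0:ℝ) < u ^ 2)]
    have e3 : |w * Real.cos (w * u) * u - Real.sin (w * u)| ≤ w * u + 1 := by
      refine (abs_sub _ _).trans ?_
      rw [abs_mul, abs_mul, abs_of_nonneg hw, abs_of_pos h0]
      have : w * |Real.cos (w * u)| * u ≤ w * 1 * u :=
        mul_le_mul_of_nonneg_right (mul_le_mul_of_nonneg_left hc hw) h0.le
      linarith
    have e4 : |w * Real.cos (w * u) * u - Real.sin (w * u)| / u ^ 2 ≤ (w * u + 1) / u ^ 2 :=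
      div_le_div_of_nonneg_right e3 (by positivity)
    calc _ ≤ 1 * ((w * u + 1) / u ^ 2) := mul_le_mul hB e4 (by positivity) (by norm_num)
      _ = _ := by
        field_simp
  linarith

/-- **O6** -/
theorem psi_pi : ∃ C : ℝ, 0 < C ∧ ∀ T M Lam x : ℝ, 1 < T → 1 ≤ M → M ≤ x → x ≤ Lam → Lam ≤ Real.log T →
    |Psi T M Lam x - Real.pi / 2| ≤ C * (M / x + x / Lam + Lam * (1 + Real.log (Lam / M)) / Real.log T) := by
  classical
  obtain ⟨E, hE, hs⟩ := Pool.Agent.Helper7.UV.prime_sum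
  have hpi := Real.pi_pos
  have hpi4 := Real.pi_lt_d2
  refine ⟨22 * E + 7, by positivity, fun T M Lam x hT hM hMx hxL hLT => ?_⟩
  have hlT : 0 < Real.log T := Real.log_pos hT
  have hM0 : 0 < M := by linarith
  have hx0 : 0 < x := by linarith
  have hL0 : 0 < Lam := by linarith
  have hML : M ≤ Lam := hMx.trans hxL
  set l := Real.log T with hl
  obtain ⟨lam, hlam⟩ : ∃ lam, lam = Lam / l := ⟨_, rfl⟩
  obtain ⟨mu, hmu⟩ : ∃ mu, mu = M / l := ⟨_, rfl⟩
  obtain ⟨w, hw⟩ : ∃ w, w = 2 * Real.pi * x / l := ⟨_, rfl⟩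
  have hlam0 : 0 < lam := by rw [hlam]; positivity
  have hmu0 : 0 < mu := by rw [hmu]; positivity
  have hw0 : 0 < w := by rw [hw]; positivity
  have hml : mu ≤ lam := by rw [hlam, hmu]; exact div_le_div_of_nonneg_right hML hlT.le
  have hwl : w ≤ 7 * lam := by
    rw [hw, hlam, ← mul_div_assoc]
    apply div_le_div_of_nonneg_right _ hlT.le
    nlinarith
  have hb12 : 1 / lam ≤ 1 / mu := one_div_le_one_div_of_le hmu0 hml
  have hb1 : 0 < 1 / lam := by positivity
  have hb2 : 0 < 1 / mu := by positivity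
  have e1 : l / M = 1 / mu := by rw [hmu, one_div_div]
  have hlog0 : 0 ≤ Real.log (Lam / M) := Real.log_nonneg (by rwa [one_le_div hM0])
  -- the two parts
  obtain ⟨P1, hP1⟩ : ∃ P1, P1 = (QX (l / M)).filter (fun p : ℕ => Real.log p ≤ 1 / lam) := ⟨_, rfl⟩
  obtain ⟨P2, hP2⟩ : ∃ P2, P2 = (QX (l / M)).filter (fun p : ℕ => ¬ Real.log p ≤ 1 / lam) := ⟨_, rfl⟩
  have m1 : ∀ p : ℕ, p ∈ P1 ↔ p.Prime ∧ 0 < Real.log p ∧ Real.log p ≤ 1 / lam := by
    intro p
    rw [hP1, Finset.mem_filter, mem_QX, e1]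
    constructor
    · rintro ⟨⟨h1, _⟩, h2⟩
      exact ⟨h1, Real.log_pos (by exact_mod_cast h1.one_lt), h2⟩
    · rintro ⟨h1, _, h2⟩
      exact ⟨⟨h1, h2.trans hb12⟩, h2⟩
  have m2 : ∀ p : ℕ, p ∈ P2 ↔ p.Prime ∧ 1 / lam < Real.log p ∧ Real.log p ≤ 1 / mu := by
    intro p
    rw [hP2, Finset.mem_filter, mem_QX, e1, not_le]
    tauto
  have hsplit : Psi T M Lam x = (∑ p ∈ P1, Real.log p / p * H1 lam mu w (Real.log p)) + ∑ p ∈ P2, Real.log p / p * H2 mu w (Real.log p) := by
    unfold Psi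
    rw [← hl, ← Finset.sum_filter_add_sum_filter_not (QX (l / M)) (fun p : ℕ => Real.log p ≤ 1 / lam), ← hP1, ← hP2]
    congr 1
    · refine Finset.sum_congr rfl fun p hp => ?_
      obtain ⟨_, h1, h2⟩ := (m1 p).1 hp
      have h3 : 0 ≤ 1 - lam * Real.log p := by
        rw [le_div_iff₀ hlam0] at h2
        linarith
      unfold mt H1
      rw [← hl, show Lam * Real.log p / l = lam * Real.log p by rw [hlam]; ring, max_eq_right h3,
        show M * Real.log p / l = mu * Real.log p by rw [hmu]; ring,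
        show 2 * Real.pi * x * (Real.log p / l) = w * Real.log p by rw [hw]; ring]
      ring
    · refine Finset.sum_congr rfl fun p hp => ?_
      obtain ⟨_, h1, h2⟩ := (m2 p).1 hp
      have h3 : 1 - lam * Real.log p ≤ 0 := by
        rw [div_lt_iff₀ hlam0] at h1
        linarith
      have h4 : Real.log p ≠ 0 := (hb1.trans h1).ne'
      unfold mt H2
      rw [← hl, show Lam * Real.log p / l = lam * Real.log p by rw [hlam]; ring, max_eq_left h3,
        show M * Real.log p / l = mu * Real.log p by rw [hmu]; ring,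
        show 2 * Real.pi * x * (Real.log p / l) = w * Real.log p by rw [hw]; ring]
      field_simp
      ring
  -- first range
  have B1 : |(∑ p ∈ P1, Real.log p / p * H1 lam mu w (Real.log p)) - ∫ u in (0:ℝ)..1 / lam, H1 lam mu w u| ≤ E * (21 * lam) := by
    have h1 := hs 0 (1 / lam) le_rfl hb1.le P1 m1 (H1 lam mu w) (H1' lam mu w) (fun u _ => H1_deriv lam mu w u) (by
      unfold H1'
      fun_prop)
    refine h1.trans (mul_le_mul_of_nonneg_left ?_ hE.le)
    have h2 := (H1_bd hmu0.le hml hw0.le hb1.le (by field_simp; exact le_rfl)).1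
    have h3 : ∫ u in (0:ℝ)..1 / lam, |H1' lam mu w u| ≤ lam + 4 * mu + 2 * w := by
      have h4 : ∀ u ∈ uIoc (0:ℝ) (1 / lam), ‖|H1' lam mu w u|‖ ≤ lam * (lam + 4 * mu + 2 * w) := by
        intro u hu
        rw [uIoc_of_le hb1.le] at hu
        rw [Real.norm_eq_abs, abs_abs]
        refine (H1_bd hmu0.le hml hw0.le hu.1.le ?_).2
        have := hu.2
        rw [le_div_iff₀ hlam0] at this
        linarith
      have h5 := intervalIntegral.norm_integral_le_of_norm_le_const h4
      rw [sub_zero, abs_of_pos hb1, Real.norm_eq_abs] at h5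
      refine (le_abs_self _).trans (h5.trans (le_of_eq ?_))
      field_simp
    linarith
  -- second range
  have B2 : |(∑ p ∈ P2, Real.log p / p * H2 mu w (Real.log p)) - ∫ u in (1 / lam)..1 / mu, H2 mu w u| ≤
      E * (9 * lam * Real.log (Lam / M) + lam) := by
    have hne : ∀ u ∈ Icc (1 / lam) (1 / mu), u ≠ 0 := fun u hu => (hb1.trans_le hu.1).ne'
    have hcH : ContinuousOn (H2' mu w) (Icc (1 / lam) (1 / mu)) := by
      unfold H2'
      apply ContinuousOn.add
      · apply ContinuousOn.mul (by fun_prop)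
        exact ContinuousOn.div (by fun_prop) (by fun_prop) hne
      · apply ContinuousOn.mul (by fun_prop)
        exact ContinuousOn.div (by fun_prop) (by fun_prop) fun u hu => pow_ne_zero 2 (hne u hu)
    have h1 := hs (1 / lam) (1 / mu) hb1.le hb12 P2 m2 (H2 mu w) (H2' mu w) (fun u hu => H2_deriv mu w (hne u hu)) hcH
    refine h1.trans (mul_le_mul_of_nonneg_left ?_ hE.le)
    have h2 : H2 mu w (1 / mu) = 0 := by
      unfold H2
      rw [mul_one_div_cancel hmu0.ne', sub_self]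
      ring
    rw [h2, abs_zero, zero_add]
    have hci1 : ContinuousOn (fun u : ℝ => u⁻¹) (uIcc (1 / lam) (1 / mu)) := by
      rw [uIcc_of_le hb12]
      exact ContinuousOn.inv₀ (by fun_prop) hne
    have hci2 : ContinuousOn (fun u : ℝ => (u ^ 2)⁻¹) (uIcc (1 / lam) (1 / mu)) := by
      rw [uIcc_of_le hb12]
      exact ContinuousOn.inv₀ (by fun_prop) fun u hu => pow_ne_zero 2 (hne u hu)
    have h3 : ∫ u in (1 / lam)..1 / mu, |H2' mu w u| ≤ ∫ u in (1 / lam)..1 / mu, ((2 * mu + w) * u⁻¹ + (u ^ 2)⁻¹) := by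
      apply intervalIntegral.integral_mono_on hb12
      · apply ContinuousOn.intervalIntegrable
        rw [uIcc_of_le hb12]
        exact hcH.abs
      · exact ((continuousOn_const.mul hci1).add hci2).intervalIntegrable
      · intro u hu
        apply H2_bd hmu0.le hw0.le (hb1.trans_le hu.1)
        have := hu.2
        rw [le_div_iff₀ hmu0] at this
        linarith
    refine h3.trans ?_
    rw [intervalIntegral.integral_add (by exact (continuousOn_const.mul hci1).intervalIntegrable) hci2.intervalIntegrable,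
      intervalIntegral.integral_const_mul, integral_inv_of_pos hb1 hb2]
    have h4 : ∫ u in (1 / lam)..1 / mu, (u ^ 2)⁻¹ = lam - mu := by
      have h6 := intervalIntegral.integral_eq_sub_of_hasDerivAt (a := 1 / lam) (b := 1 / mu) (f := fun u : ℝ => -u⁻¹) (f' := fun u => (u ^ 2)⁻¹)
        (fun u hu => by
          rw [uIcc_of_le hb12] at hu
          have := (hasDerivAt_inv (hne u hu)).fun_neg
          rwa [neg_neg] at this) hci2.intervalIntegrable
      rw [h6]
      simp only [one_div, inv_inv]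
      ring
    rw [h4]
    have h5 : 1 / mu / (1 / lam) = Lam / M := by
      rw [hmu, hlam]
      field_simp
    rw [h5]
    have h6 : (2 * mu + w) * Real.log (Lam / M) ≤ 9 * lam * Real.log (Lam / M) := mul_le_mul_of_nonneg_right (by linarith) hlog0
    linarith
  -- the main term
  have B3 : |(∫ u in (0:ℝ)..1 / mu, gg mu w u) - Real.pi / 2| ≤ Real.pi * (M / x) := by
    have h1 := gg_int hM0 hmu0 hx0
    have h2 : 2 * Real.pi * x * mu / M = w := by
      rw [hmu, hw]
      field_simp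
    rwa [h2] at h1
  have B4 : (∫ u in (0:ℝ)..1 / lam, H1 lam mu w u) + (∫ u in (1 / lam)..1 / mu, H2 mu w u) =
      (∫ u in (0:ℝ)..1 / mu, gg mu w u) - ∫ u in (0:ℝ)..1 / lam, gg mu w u * (1 - lam * u) ^ 2 := by
    have h1 : ∫ u in (0:ℝ)..1 / lam, H1 lam mu w u = ∫ u in (0:ℝ)..1 / lam, (gg mu w u - gg mu w u * (1 - lam * u) ^ 2) := by
      refine intervalIntegral.integral_congr_ae (ae_of_all _ fun u hu => ?_)
      rw [uIoc_of_le hb1.le] at hu
      have hu0 : u ≠ 0 := hu.1.ne'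
      rw [gg_eq hw0.ne' hu0]
      unfold H1
      field_simp
      ring
    have h2 : ∫ u in (1 / lam)..1 / mu, H2 mu w u = ∫ u in (1 / lam)..1 / mu, gg mu w u := by
      refine intervalIntegral.integral_congr_ae (ae_of_all _ fun u hu => ?_)
      rw [uIoc_of_le hb12] at hu
      have hu0 : u ≠ 0 := (hb1.trans hu.1).ne'
      rw [gg_eq hw0.ne' hu0]
      rfl
    have hgc := gg_cont mu w
    rw [h1, h2, intervalIntegral.integral_sub (hgc.intervalIntegrable _ _) (by
      apply Continuous.intervalIntegrable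
      exact hgc.mul (by fun_prop))]
    have h3 := intervalIntegral.integral_add_adjacent_intervals (hgc.intervalIntegrable (μ := volume) 0 (1 / lam))
      (hgc.intervalIntegrable (μ := volume) (1 / lam) (1 / mu))
    linarith
  have B5 : |∫ u in (0:ℝ)..1 / lam, gg mu w u * (1 - lam * u) ^ 2| ≤ 2 * Real.pi * (x / Lam) := by
    have h4 : ∀ u ∈ uIoc (0:ℝ) (1 / lam), ‖gg mu w u * (1 - lam * u) ^ 2‖ ≤ w := by
      intro u hu
      rw [uIoc_of_le hb1.le] at hu
      have h1 : lam * u ≤ 1 := by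
        have := hu.2
        rw [le_div_iff₀ hlam0] at this
        linarith
      have h0 : 0 ≤ lam * u := by
        have := hu.1
        positivity
      have h2 : 0 ≤ mu * u := by
        have := hu.1
        positivity
      have h3 : mu * u ≤ 1 := (mul_le_mul_of_nonneg_right hml hu.1.le).trans h1
      have h5 := gg_abs hw0 h2 h3
      rw [Real.norm_eq_abs, abs_mul, abs_of_nonneg (sq_nonneg (1 - lam * u))]
      have h6 : (1 - lam * u) ^ 2 ≤ 1 := pow_le_one₀ (by linarith) (by linarith)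
      calc |gg mu w u| * (1 - lam * u) ^ 2 ≤ w * 1 := mul_le_mul h5 h6 (sq_nonneg _) hw0.le
        _ = w := mul_one w
    have h5 := intervalIntegral.norm_integral_le_of_norm_le_const h4
    rw [sub_zero, abs_of_pos hb1, Real.norm_eq_abs] at h5
    refine h5.trans (le_of_eq ?_)
    rw [hw, hlam]
    field_simp
  rw [hsplit]
  have hfin : |(∑ p ∈ P1, Real.log p / p * H1 lam mu w (Real.log p)) + (∑ p ∈ P2, Real.log p / p * H2 mu w (Real.log p)) - Real.pi / 2| ≤
      E * (21 * lam) + E * (9 * lam * Real.log (Lam / M) + lam) + Real.pi * (M / x) + 2 * Real.pi * (x / Lam) := by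
    rw [abs_le] at B1 B2 B3 B5 ⊢
    constructor <;> linarith [B1.1, B1.2, B2.1, B2.2, B3.1, B3.2, B5.1, B5.2]
  refine hfin.trans ?_
  have hMx0 : 0 ≤ M / x := by positivity
  have hxL0 : 0 ≤ x / Lam := by positivity
  have e2 : Lam * (1 + Real.log (Lam / M)) / l = lam * (1 + Real.log (Lam / M)) := by
    rw [hlam]
    ring
  rw [e2]
  have h1 : Real.pi * (M / x) ≤ 7 * (M / x) := mul_le_mul_of_nonneg_right (by linarith) hMx0
  have h2 : 2 * Real.pi * (x / Lam) ≤ 7 * (x / Lam) := mul_le_mul_of_nonneg_right (by linarith) hxL0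
  have h3 : 0 ≤ lam * Real.log (Lam / M) := by positivity
  have h4 : 0 ≤ E * (M / x) := by positivity
  have h5 : 0 ≤ E * (x / Lam) := by positivity
  have h6 : 0 ≤ E * (lam * Real.log (Lam / M)) := by positivity
  nlinarith

end Pool.Agent.Helper82.OPT
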